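import Mathlib

namespace Pool.Agent.H.MP_e52bc6_co

open SimpleGraph

/-- total domination number -/
noncomputable def gt {V : Type} (G : SimpleGraph V) : ℕ :=
  sInf {k | ∃ D : Finset V, D.card = k ∧ ∀ v, ∃ u ∈ D, G.Adj v u}

/-- connected cubic graphs with no induced claw and no induced diamond -/
def InC {V : Type} (G : SimpleGraph V) : Prop :=
  G.Connected ∧ (∀ v, (G.neighborSet v).ncard = 3) ∧
    IsEmpty (completeBipartiteGraph (Fin 1) (Fin 3) ↪g G) ∧
    IsEmpty ((⊤ : SimpleGraph (Fin 4)).deleteEdges {s(0, 1)} ↪g G)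

end Pool.Agent.H.MP_e52bc6_co
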