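import Mathlib
import Pool.Agent.H.MP_e52bc6_co.Defs
import Pool.Agent.Lib.helper26.Berge

namespace Pool.Agent.H.MP_e52bc6_co

open Finset SimpleGraph

structure TS {V : Type} [Fintype V] (G : SimpleGraph V) (ι : Type) [DecidableEq ι] where
  τ : V → ι
  σ : V → V
  fib : ∀ t, #{u | τ u = t} = 3
  inv : ∀ v, σ (σ v) = v
  ne : ∀ v, τ (σ v) ≠ τ v
  adj : ∀ u v, G.Adj u v ↔ u ≠ v ∧ (τ u = τ v ∨ v = σ u)

variable {V : Type} [Fintype V] [DecidableEq V] {G : SimpleGraph V} {ι : Type} [DecidableEq ι]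

lemma even_inv {s : Finset V} (g : V → V) (h1 : ∀ v ∈ s, g v ≠ v) (h2 : ∀ v ∈ s, g v ∈ s)
    (h3 : ∀ v ∈ s, g (g v) = v) : Even #s := by
  have := sum_involution (s := s) (f := fun _ => (1 : ZMod 2)) (fun v _ => g v) (fun _ _ => rfl)
    (fun v hv _ => h1 v hv) h2 h3
  rwa [sum_const, nsmul_one, ZMod.natCast_eq_zero_iff_even] at this

namespace TS
variable (T : TS G ι)

lemma sne (v : V) : T.σ v ≠ v := fun e => T.ne v (by rw [e])

lemma adj_s (v : V) : G.Adj v (T.σ v) := (T.adj _ _).2 ⟨(T.sne v).symm, Or.inr rfl⟩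

lemma tri {a b c : V} (ab : G.Adj a b) (ac : G.Adj a c) (bc : G.Adj b c) : T.τ b = T.τ a := by
  rw [T.adj] at ab ac bc
  refine (ab.2.resolve_right ?_).symm
  rintro rfl
  have h1 := ac.2.resolve_right fun e => bc.1 e.symm
  have h2 := bc.2.resolve_right (by rw [T.inv]; exact ac.1.symm)
  exact T.ne a (h2.trans h1.symm)

include T in
lemma inC (hc : G.Connected) : InC G := by
  refine ⟨hc, fun v => ?_, ⟨fun f => ?_⟩, ⟨fun f => ?_⟩⟩
  · have : G.neighborSet v = ↑(insert (T.σ v) (erase {u | T.τ u = T.τ v} v)) := by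
      ext u
      simp only [mem_neighborSet, T.adj, coe_insert, coe_erase, coe_filter, mem_univ, true_and,
        Set.mem_insert_iff, Set.mem_diff, Set.mem_setOf_eq, Set.mem_singleton_iff]
      have := T.sne v
      constructor
      · rintro ⟨a, b | b⟩
        exacts [Or.inr ⟨b.symm, a.symm⟩, Or.inl b]
      · rintro (rfl | ⟨a, b⟩)
        exacts [⟨this.symm, Or.inr rfl⟩, ⟨Ne.symm b, Or.inl a.symm⟩]
    rw [this, Set.ncard_coe_finset, card_insert_of_notMem (by simp [T.ne]),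
      card_erase_of_mem (by simp), T.fib]
  · have a : ∀ i, T.τ (f (.inl 0)) = T.τ (f (.inr i)) ∨ f (.inr i) = T.σ (f (.inl 0)) := fun i =>
      ((T.adj _ _).1 (f.map_adj_iff.2 (by simp))).2
    have b : ∀ i j, i ≠ j → T.τ (f (.inr i)) ≠ T.τ (f (.inr j)) := fun i j n e =>
      (by simp : ¬ (completeBipartiteGraph (Fin 1) (Fin 3)).Adj (.inr i) (.inr j))
        (f.map_adj_iff.1 ((T.adj _ _).2 ⟨by simpa using n, Or.inl e⟩))
    have b01 := b 0 1 (by decide)
    have b02 := b 0 2 (by decide)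
    have b12 := b 1 2 (by decide)
    rcases a 0 with a0 | a0 <;> rcases a 1 with a1 | a1 <;> rcases a 2 with a2 | a2 <;> simp_all
  · have a : ∀ i j, i ≠ j → s(i, j) ≠ s(0, 1) → G.Adj (f i) (f j) := fun i j n m =>
      f.map_adj_iff.2 (by simpa using ⟨n, by simpa using m⟩)
    have h0 := T.tri (a 2 0 (by decide) (by decide)) (a 2 3 (by decide) (by decide))
      (a 0 3 (by decide) (by decide))
    have h1 := T.tri (a 2 1 (by decide) (by decide)) (a 2 3 (by decide) (by decide))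
      (a 1 3 (by decide) (by decide))
    have := f.map_adj_iff.1 ((T.adj (f 0) (f 1)).2 ⟨by simp, Or.inl (h0.trans h1.symm)⟩)
    simp at this

end TS

lemma exists_TS (h : InC G) (h4 : Fintype.card V ≠ 4) :
    ∃ (ι : Type) (_ : Fintype ι) (_ : DecidableEq ι), Nonempty (TS G ι) := by
  classical
  obtain ⟨hc, hr, h1, h2⟩ := h
  have cf : ∀ v a b c, G.Adj v a → G.Adj v b → G.Adj v c → a ≠ b → a ≠ c → b ≠ c →
      G.Adj a b ∨ G.Adj a c ∨ G.Adj b c := by
    intro v a b c x y z ab ac bc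
    by_contra k
    push Not at k
    have := x.ne; have := y.ne; have := z.ne
    refine h1.false ⟨⟨Sum.elim (fun _ => v) ![a, b, c], ?_⟩, ?_⟩
    · rintro (i | i) (j | j) <;> fin_cases i <;> fin_cases j <;>
        simp [x.ne, y.ne, z.ne, x.ne', y.ne', z.ne', ab, ac, bc, ab.symm, ac.symm, bc.symm]
    · intro i j
      show G.Adj (Sum.elim (fun _ => v) ![a, b, c] i) (Sum.elim (fun _ => v) ![a, b, c] j) ↔ _
      rcases i with i | i <;> rcases j with j | j <;> fin_cases i <;> fin_cases j <;>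
        simp [x, y, z, x.symm, y.symm, z.symm, k, G.adj_comm b a, G.adj_comm c]
  have nb : ∀ v, ∃ a b c, a ≠ b ∧ a ≠ c ∧ b ≠ c ∧ ∀ u, G.Adj v u ↔ u = a ∨ u = b ∨ u = c := by
    intro v
    obtain ⟨a, b, c, x, y, z, e⟩ := Set.ncard_eq_three.1 (hr v)
    exact ⟨a, b, c, x, y, z, fun u => by simpa using Set.ext_iff.1 e u⟩
  have n4 : ∀ v a b c u, G.Adj v a → G.Adj v b → G.Adj v c → a ≠ b → a ≠ c → b ≠ c → G.Adj v u →
      u = a ∨ u = b ∨ u = c := by
    intro v a b c u x y z ab ac bc w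
    obtain ⟨p, q, r, -, -, -, e⟩ := nb v
    rw [e] at x y z w
    rcases x with rfl | rfl | rfl <;> rcases y with rfl | rfl | rfl <;>
      rcases z with rfl | rfl | rfl <;> tauto
  have nf : ∀ v b a c, G.Adj v b → G.Adj v a → G.Adj v c → G.Adj b a → G.Adj b c → a = c := by
    intro v b a c x1 x2 x3 x4 x5
    by_contra ac
    have := x1.ne; have := x2.ne; have := x3.ne; have := x4.ne; have := x5.ne
    have x6 : G.Adj a c := by
      by_contra k
      refine h2.false ⟨⟨![a, c, v, b], ?_⟩, ?_⟩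
      · intro i j; fin_cases i <;> fin_cases j <;> simp [x1.ne, x2.ne, x3.ne, x4.ne, x5.ne, x1.ne',
          x2.ne', x3.ne', x4.ne', x5.ne', ac, Ne.symm ac]
      · intro i j
        show G.Adj (![a, c, v, b] i) (![a, c, v, b] j) ↔ _
        fin_cases i <;> fin_cases j <;> simp [x1, x2, x3, x4, x5, x1.symm, x2.symm, x3.symm,
          x4.symm, x5.symm, k, G.adj_comm c a]
    have : ∀ u, u ∈ ({v, b, a, c} : Finset V) := fun u => by
      by_contra k
      obtain ⟨p⟩ := hc v u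
      obtain ⟨d, -, d1, d2⟩ := p.exists_boundary_dart ({v, b, a, c} : Finset V) (by simp) k
      have e := d.adj
      simp only [coe_insert, coe_singleton, Set.mem_insert_iff, Set.mem_singleton_iff] at d1 d2
      rcases d1 with d1 | d1 | d1 | d1 <;> rw [d1] at e
      · have := n4 _ _ _ _ _ x1 x2 x3 x4.ne x5.ne ac e; tauto
      · have := n4 _ _ _ _ _ x1.symm x4 x5 x2.ne x3.ne ac e; tauto
      · have := n4 _ _ _ _ _ x2.symm x4.symm x6 x1.ne x3.ne x5.ne e; tauto
      · have := n4 _ _ _ _ _ x3.symm x5.symm x6.symm x1.ne x2.ne x4.ne e; tauto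
    refine h4 ?_
    rw [← card_univ, ← eq_univ_of_forall this, card_insert_of_notMem (by simp [*]),
      card_insert_of_notMem (by simp [*]), card_pair ac]
  have st : ∀ v, ∃ a b c, G.Adj a b ∧ ¬ G.Adj a c ∧ ¬ G.Adj b c ∧ a ≠ c ∧ b ≠ c ∧
      ∀ u, G.Adj v u ↔ u = a ∨ u = b ∨ u = c := by
    intro v
    obtain ⟨a, b, c, x, y, z, e⟩ := nb v
    have va := (e a).2 (by simp)
    have vb := (e b).2 (by simp)
    have vc := (e c).2 (by simp)
    rcases cf v a b c va vb vc x y z with k | k | k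
    · exact ⟨a, b, c, k, fun m => z (nf v a b c va vb vc k m),
        fun m => y (nf v b a c vb va vc k.symm m), y, z, e⟩
    · exact ⟨a, c, b, k, fun m => z (nf v a b c va vb vc m k),
        fun m => x (nf v c a b vc va vb k.symm m), x, z.symm, fun u => by rw [e]; tauto⟩
    · exact ⟨b, c, a, k, fun m => y (nf v b a c vb va vc m k),
        fun m => x (nf v c a b vc va vb m k.symm), x.symm, y.symm, fun u => by rw [e]; tauto⟩
  choose a b σ s1 s2 s3 s4 s5 s6 using st
  have va := fun v => (s6 v (a v)).2 (by simp)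
  have vb := fun v => (s6 v (b v)).2 (by simp)
  have vs := fun v => (s6 v (σ v)).2 (by simp)
  have ch : ∀ v u, u = σ v ↔ G.Adj v u ∧ ∀ w, G.Adj v w → ¬ G.Adj u w := fun v u => by
    constructor
    · rintro rfl
      refine ⟨vs v, fun w hw k => ?_⟩
      rcases (s6 v w).1 hw with rfl | rfl | rfl
      exacts [s2 v k.symm, s3 v k.symm, k.ne rfl]
    · rintro ⟨h1, h2⟩
      rcases (s6 v u).1 h1 with rfl | rfl | rfl
      exacts [(h2 _ (vb v) (s1 v)).elim, (h2 _ (va v) (s1 v).symm).elim, rfl]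
  have inv : ∀ v, σ (σ v) = v := fun v => ((ch _ _).2 ⟨(vs v).symm, fun w h1 h2 =>
    ((ch v _).1 rfl).2 w h2 h1⟩).symm
  let τ : V → Finset V := fun v => {v, a v, b v}
  have c3 : ∀ v, #(τ v) = 3 := fun v => card_eq_three.2 ⟨_, _, _, (va v).ne, (vb v).ne, (s1 v).ne, rfl⟩
  have mt : ∀ v u, u ∈ τ v ↔ u = v ∨ (G.Adj v u ∧ u ≠ σ v) := fun v u => by
    have := s4 v; have := s5 v
    simp only [τ, mem_insert, mem_singleton, s6]
    refine or_congr_right ⟨?_, by tauto⟩
    rintro (rfl | rfl) <;> tauto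
  have tt : ∀ v u, u ∈ τ v → τ u = τ v := fun v u h => by
    refine (eq_of_subset_of_card_le ?_ (by rw [c3, c3])).symm
    have k : ∀ x y z, G.Adj x y → G.Adj x z → G.Adj y z → y ∈ τ x := fun x y z p q r =>
      (mt _ _).2 (Or.inr ⟨p, fun e => ((ch _ _).1 e).2 z q r⟩)
    simp only [τ, mem_insert, mem_singleton] at h
    rcases h with rfl | rfl | rfl
    · rfl
    · exact insert_subset (k _ _ _ (va v).symm (s1 v) (vb v)) (insert_subset (by simp [τ])
        (singleton_subset_iff.2 (k _ _ _ (s1 v) (va v).symm (vb v).symm)))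
    · exact insert_subset (k _ _ _ (vb v).symm (s1 v).symm (va v)) (insert_subset
        (k _ _ _ (s1 v).symm (vb v).symm (va v).symm) (by simp [τ]))
  have te : ∀ u v, τ u = τ v ↔ u ∈ τ v := fun u v => ⟨fun e => e ▸ by simp [τ], tt v u⟩
  refine ⟨Set.range τ, inferInstance, inferInstance, ⟨⟨fun v => ⟨τ v, v, rfl⟩, σ, ?_, inv,
    fun v => ?_, fun u v => ?_⟩⟩⟩
  · rintro ⟨_, v, rfl⟩
    rw [← c3 v]; congr 1; ext u; rw [mem_filter, Subtype.ext_iff, ← te]; simp
  · refine fun e => ?_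
    simpa [te, mt, (vs v).ne'] using (congrArg Subtype.val e : τ (σ v) = τ v)
  · rw [Subtype.ext_iff]
    show _ ↔ _ ∧ (τ u = τ v ∨ _)
    rw [eq_comm (a := τ u), te, mt]
    refine ⟨fun h => ⟨h.ne, by tauto⟩, ?_⟩
    rintro ⟨n, (rfl | h) | rfl⟩
    exacts [(n rfl).elim, h.1, vs u]

end Pool.Agent.H.MP_e52bc6_co
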