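import Mathlib
import Pool.Agent.H.MP_e52bc6_co.A

namespace Pool.Agent.H.MP_e52bc6_co

open Finset SimpleGraph Pool.Agent.Lib.helper26.Berge

variable {V : Type} [Fintype V] [DecidableEq V] {G : SimpleGraph V} {ι : Type} [DecidableEq ι]

lemma conn {W : Type} [DecidableEq W] (hc : G.Connected) (π : V → W) (σ : V → V) (F : Finset V)
    (h : ∀ u v, G.Adj u v → π u ≠ π v → ∃ x ∈ F, (u = x ∧ v = σ x) ∨ (v = x ∧ u = σ x)) :
    #(image π univ) ≤ #F + 1 := by
  let p : V → Set.range π := fun v => ⟨π v, v, rfl⟩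
  let Q : SimpleGraph (Set.range π) :=
    { Adj a b := a ≠ b ∧ ∃ u v, G.Adj u v ∧ p u = a ∧ p v = b
      symm := ⟨fun a b ⟨h, u, v, x, y, z⟩ => ⟨h.symm, v, u, x.symm, z, y⟩⟩
      loopless := ⟨fun a h => h.1 rfl⟩ }
  have r : ∀ u v, Q.Reachable (p u) (p v) := fun u v => by
    have := (reachable_iff_reflTransGen _ _).1 (hc u v)
    induction this with
    | refl => rfl
    | @tail b c _ a ih =>
      by_cases e : p b = p c
      · exact e ▸ ih
      · exact ih.trans (Adj.reachable ⟨e, b, c, a, rfl, rfl⟩)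
  have : Q.Connected := by
    obtain ⟨v⟩ := hc.nonempty
    exact @Connected.mk _ _ (by rintro ⟨_, u, rfl⟩ ⟨_, v, rfl⟩; exact r u v) ⟨p v⟩
  have := this.card_vert_le_card_edgeSet_add_one
  rw [Nat.card_coe_set_eq, Nat.card_coe_set_eq, show (Set.range π).ncard = #(image π univ) by
    rw [← Set.ncard_coe_finset]; simp] at this
  refine this.trans (add_le_add_left (le_trans (Set.ncard_le_ncard
    (t := ↑(F.image fun x => s(p x, p (σ x)))) fun e he => ?_) ?_) 1)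
  · induction e using Sym2.ind with
    | _ a b =>
      obtain ⟨n, u, v, x, rfl, rfl⟩ := he
      obtain ⟨y, hy, ⟨rfl, rfl⟩ | ⟨rfl, rfl⟩⟩ := h u v x fun e => n (Subtype.ext e)
      · exact mem_image_of_mem _ hy
      · exact mem_coe.2 (mem_image.2 ⟨_, hy, Sym2.eq_swap⟩)
  · rw [Set.ncard_coe_finset]; exact card_image_le

namespace TS
variable (T : TS G ι)

lemma card_in (C : Finset ι) : #{v | T.τ v ∈ C} = 3 * #C := by
  rw [card_eq_sum_card_fiberwise (f := T.τ) (t := C) fun v hv => by simpa using hv, mul_comm,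
    ← smul_eq_mul, ← sum_const]
  refine sum_congr rfl fun t ht => ?_
  rw [← T.fib t]; congr 1; ext v
  simp only [mem_filter, mem_univ, true_and]
  exact ⟨fun h => h.2, fun h => ⟨h ▸ ht, h⟩⟩

lemma surj (t : ι) : ∃ v, T.τ v = t := by
  obtain ⟨v, h⟩ := card_pos.1 (show 0 < #{u | T.τ u = t} by rw [T.fib]; omega)
  exact ⟨v, (mem_filter.1 h).2⟩

lemma dom [Fintype ι] {f : ι → ι} (h1 : ∀ t, f (f t) = t)
    (h2 : ∀ t, f t ≠ t → ∃ v, T.τ v = t ∧ T.τ (T.σ v) = f t) :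
    gt G ≤ Fintype.card ι + #{t | f t = t} := by
  have h2' : ∀ t, ∃ v, T.τ v = t ∧ (f t ≠ t → T.τ (T.σ v) = f t) := fun t => by
    by_cases c : f t = t
    · exact (T.surj t).imp fun v h => ⟨h, fun n => (n c).elim⟩
    · exact (h2 t c).imp fun v h => ⟨h.1, fun _ => h.2⟩
  choose w w1 w2 using h2'
  let e := Fintype.equivFin ι
  let D := Finset.biUnion {t | e t < e (f t)} (fun t => {w t, T.σ (w t)}) ∪
    Finset.biUnion {t | f t = t} fun t => erase {u | T.τ u = t} (w t)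
  refine le_trans (b := #D) (Nat.sInf_le ⟨D, rfl, fun v => ?_⟩) ?_
  · have k : ∀ u ∈ D, T.σ u ∈ D → T.τ u = T.τ v → ∃ u ∈ D, G.Adj v u := fun u a b c => by
      by_cases n : v = u
      · exact ⟨_, b, n ▸ T.adj_s v⟩
      · exact ⟨u, a, (T.adj _ _).2 ⟨n, Or.inl c.symm⟩⟩
    have m : ∀ t, e t < e (f t) → w t ∈ D ∧ T.σ (w t) ∈ D := fun t h =>
      ⟨mem_union_left _ (mem_biUnion.2 ⟨t, by simpa, by simp⟩),
        mem_union_left _ (mem_biUnion.2 ⟨t, by simpa, by simp⟩)⟩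
    rcases lt_trichotomy (e (T.τ v)) (e (f (T.τ v))) with c | c | c
    · exact k _ (m _ c).1 (m _ c).2 (w1 _)
    · have c := (e.injective c).symm
      obtain ⟨u, a, b⟩ := exists_mem_ne (s := erase {u | T.τ u = T.τ v} (w (T.τ v))) (by
        rw [card_erase_of_mem (by simp [w1]), T.fib]; omega) v
      exact ⟨u, mem_union_right _ (mem_biUnion.2 ⟨_, by simpa, a⟩), (T.adj _ _).2 ⟨b.symm,
        Or.inl (mem_filter.1 (mem_erase.1 a).2).2.symm⟩⟩
    · have := m (f (T.τ v)) (by rwa [h1])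
      exact k _ this.2 (by rw [T.inv]; exact this.1) (by
        rw [w2 _ (by rw [h1]; exact fun k => by rw [← k] at c; exact lt_irrefl _ c), h1])
  · have a1 := card_biUnion_le_card_mul {t | e t < e (f t)} (fun t => {w t, T.σ (w t)}) 2
      fun _ _ => card_le_two
    have a2 := card_biUnion_le_card_mul {t | f t = t} (fun t => erase {u | T.τ u = t} (w t)) 2
      fun t _ => by rw [card_erase_of_mem (by simp [w1]), T.fib]
    have a3 : #{t | e t < e (f t)} ≤ #{t | e (f t) < e t} := card_le_card_of_injOn f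
      (fun t => by simp [h1]) fun a _ b _ k => by rw [← h1 a, k, h1]
    have a4 : #{t | e t < e (f t)} + #{t | e (f t) < e t} + #{t | f t = t} ≤ Fintype.card ι := by
      rw [← card_union_of_disjoint, ← card_union_of_disjoint]
      · exact card_le_univ _
      · exact disjoint_left.2 fun t a b => by
          have b : f t = t := by simpa using b
          simp [b] at a
      · exact disjoint_filter.2 fun _ _ => lt_asymm
    exact (card_union_le _ _).trans (by omega)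

lemma out_ge {C : Finset ι} (h : Odd #C) : 4 ≤ #C + #{v | T.τ v ∈ C ∧ T.τ (T.σ v) ∉ C} := by
  have a1 := card_filter_add_card_filter_not (s := {v | T.τ v ∈ C}) fun v => T.τ (T.σ v) ∈ C
  have a2 := even_inv (s := {v ∈ ({v | T.τ v ∈ C} : Finset V) | T.τ (T.σ v) ∈ C}) T.σ
    (fun v _ => T.sne v) (fun v => by simp [T.inv, and_comm]) fun v _ => T.inv v
  rw [T.card_in, filter_filter _ (fun v => ¬ _)] at a1
  rw [Nat.even_iff] at a2; rw [Nat.odd_iff] at h
  by_cases c : #C = 1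
  · obtain ⟨t, rfl⟩ := card_eq_one.1 c
    rw [filter_eq_empty_iff.2 (by
      simp only [mem_filter, mem_singleton]; exact fun v a b => T.ne v (b.trans a.2.symm))] at a1
    simp only [card_empty, card_singleton] at *; omega
  · omega

include T in
lemma upper [Fintype ι] (hc : G.Connected) : Even (Fintype.card ι) ∧
    gt G ≤ Fintype.card ι + 2 * ((Fintype.card ι + 2) / 12) := by
  have ev : Even (Fintype.card ι) := by
    have a := even_inv (s := univ) T.σ (fun v _ => T.sne v) (by simp) fun v _ => T.inv v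
    have b := T.card_in univ
    simp only [mem_univ, filter_true, card_univ] at a b
    rw [Nat.even_iff] at *; omega
  let H : SimpleGraph ι :=
    { Adj a b := a ≠ b ∧ ∃ v, T.τ v = a ∧ T.τ (T.σ v) = b
      symm := ⟨fun a b ⟨h, v, x, y⟩ => ⟨h.symm, T.σ v, y, by rw [T.inv, x]⟩⟩
      loopless := ⟨fun a h => h.1 rfl⟩ }
  refine ⟨ev, ?_⟩
  rcases tb H (2 * ((Fintype.card ι + 2) / 12)) (ev.add (even_two_mul _)) with
    ⟨f, f1, f2, f3⟩ | ⟨S, K, k1, k2, k3⟩
  · exact (T.dom f1 fun t h => (f2 t h).2).trans (by omega)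
  exfalso
  have cl : ∀ C ∈ K, ∀ v, T.τ v ∈ C → T.τ (T.σ v) ∈ C ∨ T.τ (T.σ v) ∈ S := fun C hC v hv =>
    (k2 C hC).2.2 _ hv _ ⟨(T.ne v).symm, v, rfl, rfl⟩
  have un : ∀ C ∈ K, ∀ D ∈ K, ∀ t ∈ C, t ∈ D → C = D := fun C hC D hD t a b => by
    by_contra n; exact disjoint_left.1 (k3 hC hD n) a b
  have a1 := card_nsmul_le_sum K _ 4 fun C hC => T.out_ge (k2 C hC).1
  have a2 : ∑ C ∈ K, #C + #S ≤ Fintype.card ι := by
    rw [← show #(K.biUnion id) = ∑ C ∈ K, #C from card_biUnion k3, ← card_union_of_disjoint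
      ((disjoint_biUnion_left _ id _).2 fun C h => (k2 C h).2.1)]
    exact card_le_univ _
  have a3 : ∑ C ∈ K, #{v | T.τ v ∈ C ∧ T.τ (T.σ v) ∉ C} ≤ 3 * #S := by
    rw [← card_biUnion fun C hC D hD n => disjoint_left.2 fun v a b =>
      n (un C hC D hD _ (mem_filter.1 a).2.1 (mem_filter.1 b).2.1), ← T.card_in]
    refine card_le_card_of_injOn T.σ (fun v hv => ?_) fun u _ v _ e => by
      rw [← T.inv u, e, T.inv]
    obtain ⟨C, hC, h⟩ := mem_biUnion.1 hv
    simpa using (cl C hC v (mem_filter.1 h).2.1).resolve_left (mem_filter.1 h).2.2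
  classical
  let π : ι → Finset ι := fun t => if h : ∃ C ∈ K, t ∈ C then h.choose else if t ∈ S then {t} else ∅
  have p1 : ∀ C ∈ K, ∀ t ∈ C, π t = C := fun C hC t ht => by
    have h : ∃ C ∈ K, t ∈ C := ⟨C, hC, ht⟩
    exact (dif_pos h).trans (un _ h.choose_spec.1 _ hC t h.choose_spec.2 ht)
  have p2 : ∀ t ∈ S, π t = {t} := fun t ht =>
    (dif_neg fun ⟨C, hC, h⟩ => disjoint_left.1 (k2 C hC).2.1 h ht).trans (if_pos ht)
  have a4 := conn hc (π ∘ T.τ) T.σ {v | T.τ v ∈ S} fun u v a n => by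
    obtain rfl : v = T.σ u := ((T.adj _ _).1 a).2.resolve_left fun e => n (by simp [e])
    by_cases c1 : T.τ u ∈ S
    · exact ⟨u, by simpa, Or.inl ⟨rfl, rfl⟩⟩
    by_cases c2 : T.τ (T.σ u) ∈ S
    · exact ⟨_, by simpa, Or.inr ⟨rfl, (T.inv u).symm⟩⟩
    refine (n ?_).elim
    by_cases c3 : ∃ C ∈ K, T.τ u ∈ C
    · obtain ⟨C, hC, h⟩ := c3
      exact (p1 C hC _ h).trans (p1 C hC _ ((cl C hC u h).resolve_right c2)).symm
    by_cases c4 : ∃ C ∈ K, T.τ (T.σ u) ∈ C
    · obtain ⟨C, hC, h⟩ := c4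
      have := cl C hC _ h
      rw [T.inv] at this
      exact (c3 ⟨C, hC, this.resolve_right c1⟩).elim
    simp only [Function.comp, π, dif_neg c3, dif_neg c4, if_neg c1, if_neg c2]
  have a5 : #K + #S ≤ #(image (π ∘ T.τ) univ) := by
    rw [← card_map (s := S) ⟨_, singleton_injective⟩, ← card_union_of_disjoint]
    · refine card_le_card fun C hC => ?_
      rcases mem_union.1 hC with h | h
      · obtain ⟨t, ht⟩ := card_pos.1 (k2 C h).1.pos
        obtain ⟨v, rfl⟩ := T.surj t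
        exact mem_image.2 ⟨v, mem_univ _, p1 C h _ ht⟩
      · obtain ⟨t, ht, rfl⟩ := mem_map.1 h
        obtain ⟨v, rfl⟩ := T.surj t
        exact mem_image.2 ⟨v, mem_univ _, p2 _ ht⟩
    · refine disjoint_left.2 fun C hC h => ?_
      obtain ⟨t, ht, rfl⟩ := mem_map.1 h
      exact disjoint_left.1 (k2 _ hC).2.1 (mem_singleton_self t) ht
  rw [T.card_in] at a4
  rw [sum_add_distrib, smul_eq_mul] at a1
  omega

lemma key {D : Finset V} (hD : ∀ v, ∃ u ∈ D, G.Adj v u) {C : Finset ι} (h : Odd #C) :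
    #C + 1 ≤ #{v ∈ D | T.τ v ∈ C ∨ T.τ (T.σ v) ∈ C} := by
  let x : ι → ℕ := fun t => #{v ∈ D | T.τ v = t}
  let y : ι → ℕ := fun t => #{v ∈ D | T.τ (T.σ v) = t}
  have two : ∀ u ∈ D, T.σ u ∉ D → 2 ≤ x (T.τ u) := fun u hu n => by
    obtain ⟨w, hw, a⟩ := hD u
    rw [T.adj] at a
    exact one_lt_card.2 ⟨u, by simp [hu], w, by
      simp [hw, (a.2.resolve_right (by rintro rfl; exact n hw)).symm], a.1⟩
  have b : ∀ t, 3 ≤ 2 * x t + y t := fun t => by
    by_cases c : x t = 0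
    · have : #{u | T.τ u = t} ≤ y t := card_le_card_of_injOn T.σ (fun v hv => by
        obtain ⟨w, hw, a⟩ := hD v
        have hv : T.τ v = t := by simpa using hv
        obtain rfl := ((T.adj _ _).1 a).2.resolve_left fun e =>
          card_ne_zero.2 ⟨w, by simp [hw, ← e, hv]⟩ c
        simp [hw, T.inv, hv]) fun u _ v _ e => by rw [← T.inv u, e, T.inv]
      rw [T.fib] at this; omega
    · obtain ⟨u, hu⟩ := card_ne_zero.1 c
      obtain ⟨h1, rfl⟩ := mem_filter.1 hu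
      by_cases c2 : T.σ u ∈ D
      · have : y (T.τ u) ≠ 0 := card_ne_zero.2 ⟨T.σ u, by simp [c2, T.inv]⟩
        omega
      · have := two u h1 c2; omega
  have sx : ∑ t ∈ C, x t = #{v ∈ D | T.τ v ∈ C} := (sum_card_fiberwise_eq_card_filter _ _ _)
  have sy : ∑ t ∈ C, y t = #{v ∈ D | T.τ (T.σ v) ∈ C} := (sum_card_fiberwise_eq_card_filter _ _ _)
  have u1 := card_union_add_card_inter {v ∈ D | T.τ v ∈ C} {v ∈ D | T.τ (T.σ v) ∈ C}
  have u2 : {v ∈ D | T.τ v ∈ C} ∩ {v ∈ D | T.τ (T.σ v) ∈ C} ⊆ {v ∈ D | T.τ v ∈ C} :=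
    inter_subset_left
  have u3 := card_le_card u2
  have u4 := card_le_card (subset_union_left (s₁ := {v ∈ D | T.τ v ∈ C})
    (s₂ := {v ∈ D | T.τ (T.σ v) ∈ C}))
  have s1 := sum_le_sum fun t (_ : t ∈ C) => b t
  rw [← filter_or] at u1 u4
  rw [sum_add_distrib, ← mul_sum, sx, sy, sum_const, smul_eq_mul] at s1
  by_cases c1 : ∃ u ∈ D, T.τ u ∈ C ∧ T.σ u ∉ D
  · obtain ⟨u, a1, a2, a3⟩ := c1
    have := sum_lt_sum (fun t (_ : t ∈ C) => b t) ⟨_, a2, by have := two u a1 a3; omega⟩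
    rw [sum_add_distrib, ← mul_sum, sx, sy, sum_const, smul_eq_mul] at this
    omega
  by_cases c2 : ∃ u ∈ D, T.τ u ∈ C ∧ T.τ (T.σ u) ∉ C
  · obtain ⟨u, a1, a2, a3⟩ := c2
    have := card_lt_card ((ssubset_iff_of_subset u2).2 ⟨u, by simp [a1, a2], by simp [a3]⟩)
    omega
  push Not at c1 c2
  have := even_inv (s := {v ∈ D | T.τ v ∈ C}) T.σ (fun v _ => T.sne v) (fun v hv => by
    rw [mem_filter] at *; exact ⟨c1 v hv.1 hv.2, c2 v hv.1 hv.2⟩) fun v _ => T.inv v
  rw [Nat.even_iff] at this; rw [Nat.odd_iff] at h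
  omega

lemma lower [Fintype ι] (lab : ι → ℕ) (h : ∀ v, lab (T.τ v) = 0 ∨ lab (T.τ (T.σ v)) = 0 ∨
    lab (T.τ (T.σ v)) = lab (T.τ v)) {X : Finset ℕ} (h0 : 0 ∉ X)
    (ho : ∀ x ∈ X, Odd #{t | lab t = x}) : ∑ x ∈ X, (#{t | lab t = x} + 1) ≤ gt G := by
  obtain ⟨D, e, hD⟩ := Nat.sInf_mem (s := {k | ∃ D : Finset V, D.card = k ∧ ∀ v, ∃ u ∈ D, G.Adj v u})
    ⟨_, univ, rfl, fun v => ⟨_, mem_univ _, T.adj_s v⟩⟩
  rw [gt, ← e]
  refine (sum_le_sum fun x hx => T.key hD (ho x hx)).trans ?_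
  rw [← card_biUnion fun x hx y hy n => disjoint_left.2 fun v a b => ?_]
  · exact card_le_card (biUnion_subset.2 fun _ _ => filter_subset _ _)
  · simp only [mem_filter, mem_univ, true_and] at a b
    have := h v
    have : x ≠ 0 := fun e => h0 (e ▸ hx)
    have : y ≠ 0 := fun e => h0 (e ▸ hy)
    omega

end TS

end Pool.Agent.H.MP_e52bc6_co
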