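import Mathlib
import Pool.Agent.H.MP_e52bc6_co.B

namespace Pool.Agent.H.MP_e52bc6_co

open Finset SimpleGraph

def tab (r : ℕ) : ℕ := [0, 3, 12, 1, 6, 9, 4, 10, 11, 5, 7, 8, 2, 15, 14, 13, 18, 27, 16, 21, 24, 19,
  25, 26, 20, 22, 23, 17, 30, 33, 28, 34, 35, 29, 31, 32].getD r 0

def t0 (r : ℕ) : ℕ := [3, 4, 6, 0, 1, 7, 2, 5, 9, 8].getD r 0

def t1 (r : ℕ) : ℕ := [0, 3, 6, 1, 7, 8, 2, 4, 5].getD r 0

def sg (j i v : ℕ) : ℕ :=
  if v < 10 then t0 v
  else if v < 36 * j + 21 then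
    if (v - 9) % 36 = 0 then v - 22 else if (v - 9) % 36 = 14 then v + 22
    else v - (v - 9) % 36 + tab ((v - 9) % 36)
  else if v = 36 * j + 21 then v - 10
  else if v ≤ 36 * j + 21 + 6 * i then
    if (v - 3) % 6 = 0 then v - 1 else if (v - 3) % 6 = 5 then v + 1
    else if (v - 3) % 6 < 3 then v + 2 else v - 2
  else 36 * j + 21 + 6 * i + t1 (v - (36 * j + 21 + 6 * i))

def cls (r : ℕ) : ℕ := [0, 1, 1, 1, 4, 0, 6, 6, 6, 9, 9, 9].getD r 0

def lab (j t : ℕ) : ℕ :=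
  if t < 3 then 1 else if 12 * j + 7 ≤ t then 2
  else if cls ((t - 3) % 12) = 0 then 0 else t - (t - 3) % 12 + cls ((t - 3) % 12)

lemma sg_per {j i u r : ℕ} (h : r < 36) (h0 : r ≠ 0) (h1 : r ≠ 14) (h2 : 36 * u + r < 36 * j + 12) :
    sg j i (36 * u + 9 + r) = 36 * u + 9 + tab r := by
  have : (36 * u + 9 + r - 9) % 36 = r := by omega
  rw [sg, this, if_neg (by omega), if_pos (by omega), if_neg h0, if_neg h1]; omega

lemma lab_per {j u r : ℕ} (h : r < 36) (h2 : 36 * u + r < 36 * j + 12) :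
    lab j ((36 * u + 9 + r) / 3) = if cls (r / 3) = 0 then 0 else 12 * u + 3 + cls (r / 3) := by
  have : ((36 * u + 9 + r) / 3 - 3) % 12 = r / 3 := by omega
  rw [lab, this, if_neg (by omega), if_neg (by omega)]
  congr 1; omega

lemma tab_spec : ∀ r < 36, r ≠ 0 → r ≠ 14 → tab r < 36 ∧ tab r ≠ 0 ∧ tab r ≠ 14 ∧
    tab (tab r) = r ∧ tab r / 3 ≠ r / 3 ∧ (r % 3 = 0 → tab r < r) ∧ (r < 12 → r ≠ 2 → tab r < 12) ∧
    (cls (r / 3) = 0 ∨ cls (tab r / 3) = 0 ∨ cls (tab r / 3) = cls (r / 3)) := by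
  intro r hr h0 h1
  interval_cases r <;> first | exact absurd rfl h0 | exact absurd rfl h1 | decide

lemma t1_spec : ∀ r < 9, r ≠ 0 → t1 r < 9 ∧ t1 r ≠ 0 ∧ t1 (t1 r) = r ∧ t1 r / 3 ≠ r / 3 ∧
    (r % 3 = 0 → t1 r < r) := by decide

lemma lab_hi {j t : ℕ} (h : 12 * j + 7 ≤ t) : lab j t = 2 := by
  rw [lab, if_neg (by omega), if_pos h]

lemma spec (j i v : ℕ) (hv : v < 36 * j + 30 + 6 * i) : sg j i v < 36 * j + 30 + 6 * i ∧
    sg j i (sg j i v) = v ∧ sg j i v / 3 ≠ v / 3 ∧ (v % 3 = 0 → 0 < v → sg j i v < v) ∧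
    (lab j (v / 3) = 0 ∨ lab j (sg j i v / 3) = 0 ∨ lab j (sg j i v / 3) = lab j (v / 3)) := by
  by_cases c1 : v < 10
  · interval_cases v <;> simp [sg, t0, lab, cls] <;> omega
  by_cases c2 : v < 36 * j + 21
  · obtain ⟨u, r, hr, rfl⟩ : ∃ u r, r < 36 ∧ v = 36 * u + 9 + r :=
      ⟨(v - 9) / 36, (v - 9) % 36, by omega, by omega⟩
    have l := lab_per (j := j) (u := u) hr (by omega)
    by_cases r0 : r = 0
    · subst r0
      have e : sg j i (36 * u + 9 + 0) = 36 * u + 9 - 22 := by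
        rw [sg, if_neg c1, if_pos c2, if_pos (by omega)]
      have e2 : sg j i (36 * u + 9 - 22) = 36 * u + 9 := by
        rw [sg, if_neg (by omega), if_pos (by omega), if_neg (by omega), if_pos (by omega)]; omega
      rw [e, e2]
      exact ⟨by omega, rfl, by omega, by omega, Or.inl l⟩
    by_cases r1 : r = 14
    · subst r1
      have e : sg j i (36 * u + 9 + 14) = 36 * (u + 1) + 9 + 0 := by
        rw [sg, if_neg c1, if_pos c2, if_neg (by omega), if_pos (by omega)]; omega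
      have e2 : sg j i (36 * (u + 1) + 9 + 0) = 36 * u + 9 + 14 := by
        rw [sg, if_neg (by omega), if_pos (by omega), if_pos (by omega)]; omega
      rw [e, e2]
      exact ⟨by omega, rfl, by omega, by omega, Or.inr (Or.inl (lab_per (by omega) (by omega)))⟩
    obtain ⟨a1, a2, a3, a4, a5, a6, a7, a8⟩ := tab_spec r hr r0 r1
    rw [sg_per hr r0 r1 (by omega)]
    by_cases r2 : r = 2 ∧ u = j
    · obtain ⟨rfl, rfl⟩ := r2
      rw [show tab 2 = 12 from rfl, sg, if_neg (by omega), if_neg (by omega), if_pos (by omega)]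
      exact ⟨by omega, by omega, by omega, by omega, Or.inl l⟩
    rw [sg_per a1 a2 a3 (by omega), a4, l, lab_per a1 (by omega)]
    refine ⟨by omega, rfl, by omega, by omega, ?_⟩
    split_ifs <;> omega
  have l := lab_hi (j := j) (t := v / 3) (by omega)
  by_cases c3 : v = 36 * j + 21
  · have e : sg j i v = 36 * j + 9 + 2 := by rw [sg, if_neg c1, if_neg c2, if_pos c3]; omega
    rw [e, sg_per (by omega) (by omega) (by omega) (by omega), show tab 2 = 12 from rfl]
    exact ⟨by omega, by omega, by omega, by omega, Or.inr (Or.inl (lab_per (by omega) (by omega)))⟩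
  have k : ∀ w, 36 * j + 21 ≤ w → lab j (w / 3) = lab j (v / 3) := fun w h => by
    rw [l, lab_hi (by omega)]
  by_cases c4 : v ≤ 36 * j + 21 + 6 * i
  · have s : ∀ w, 36 * j + 21 < w → w ≤ 36 * j + 21 + 6 * i → sg j i w =
        if (w - 3) % 6 = 0 then w - 1 else if (w - 3) % 6 = 5 then w + 1
        else if (w - 3) % 6 < 3 then w + 2 else w - 2 := fun w a b => by
      rw [sg, if_neg (by omega), if_neg (by omega), if_neg (by omega), if_pos b]
    have e := s v (by omega) c4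
    have e2 := s (sg j i v) (by rw [e]; split_ifs <;> omega) (by rw [e]; split_ifs <;> omega)
    refine ⟨?_, ?_, ?_, ?_, Or.inr (Or.inr (k _ ?_))⟩ <;> split_ifs at e e2 <;> omega
  · have s : ∀ r, r ≠ 0 → sg j i (36 * j + 21 + 6 * i + r) = 36 * j + 21 + 6 * i + t1 r :=
      fun r h => by
        rw [sg, if_neg (by omega), if_neg (by omega), if_neg (by omega), if_neg (by omega),
          Nat.add_sub_cancel_left]
    obtain ⟨r, rfl⟩ : ∃ r, v = 36 * j + 21 + 6 * i + r := ⟨v - (36 * j + 21 + 6 * i), by omega⟩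
    obtain ⟨a1, a2, a3, a4, a5⟩ := t1_spec r (by omega) (by omega)
    rw [s r (by omega), s _ a2, a3]
    exact ⟨by omega, rfl, by omega, by omega, Or.inr (Or.inr (k _ (by omega)))⟩

def wt (i x : ℕ) : ℕ := if x = 1 then 4 else if x = 2 then 2 * i + 4 else if x % 12 = 7 then 2
  else if x % 12 = 4 ∨ x % 12 = 9 ∨ (x % 12 = 0 ∧ x ≠ 0) then 4 else 0

lemma sum_wt (i j : ℕ) : ∑ x ∈ range (12 * j + 5), wt i x = 14 * j + 12 + 2 * i := by
  induction j with
  | zero => simp [sum_range_succ, wt]; omega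
  | succ j ih =>
    rw [show 12 * (j + 1) + 5 = 12 * j + 5 + 12 by omega, sum_range_add, ih,
      sum_congr rfl (g := fun x => wt 0 (17 + x)) fun x _ => by unfold wt; split_ifs <;> omega,
      show ∑ x ∈ range 12, wt 0 (17 + x) = 14 by decide]
    omega

lemma card_ico {k a b : ℕ} (h : b ≤ k) : #{t : Fin k | a ≤ t.val ∧ t.val < b} = b - a := by
  rw [← Nat.card_Ico]
  exact card_nbij Fin.val (by simp [Set.MapsTo]) Fin.val_injective.injOn fun x hx => by
    simp only [coe_Ico, Set.mem_Ico] at hx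
    exact ⟨⟨x, by omega⟩, by simpa using hx, rfl⟩

lemma fib_lab {j i x : ℕ} (hx : x < 12 * j + 5) (h : wt i x ≠ 0) :
    #{t : Fin (12 * j + 10 + 2 * i) | lab j t = x} + 1 = wt i x := by
  have c : ∀ r < 12, (cls r = 0 ∧ (r = 0 ∨ r = 5)) ∨ (cls r = 1 ∧ 1 ≤ r ∧ r < 4) ∨
      (cls r = 4 ∧ r = 4) ∨ (cls r = 6 ∧ 6 ≤ r ∧ r < 9) ∨ (cls r = 9 ∧ 9 ≤ r) := by decide
  have : ∀ a, a = (if x = 1 then 0 else if x = 2 then 12 * j + 7 else x) →
      #{t : Fin (12 * j + 10 + 2 * i) | lab j t = x} = a + (wt i x - 1) - a := fun a ha => by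
    rw [← card_ico (k := 12 * j + 10 + 2 * i) (by unfold wt at *; split_ifs at * <;> omega)]
    congr 1; ext t
    have := t.2
    have hc := c ((t - 3) % 12) (by omega)
    rw [mem_filter, mem_filter]
    simp only [mem_univ, true_and, lab]
    generalize cls ((t - 3) % 12) = z at hc ⊢
    unfold wt at h ⊢
    split_ifs at h ha ⊢ <;> omega
  rw [this _ rfl]; omega

theorem constr (j i : ℕ) : ∃ G : SimpleGraph (Fin (36 * j + 30 + 6 * i)),
    InC G ∧ 14 * j + 12 + 2 * i ≤ gt G := by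
  let σ : Fin (36 * j + 30 + 6 * i) → Fin (36 * j + 30 + 6 * i) := fun v =>
    ⟨sg j i v, (spec j i v v.2).1⟩
  have inv : ∀ v, σ (σ v) = v := fun v => Fin.ext (spec j i v v.2).2.1
  let τ : Fin (36 * j + 30 + 6 * i) → Fin (12 * j + 10 + 2 * i) := fun v => ⟨v / 3, by omega⟩
  let G : SimpleGraph (Fin (36 * j + 30 + 6 * i)) :=
    { Adj u v := u ≠ v ∧ (τ u = τ v ∨ v = σ u)
      symm := ⟨fun a b h => ⟨h.1.symm, h.2.imp Eq.symm fun e => by rw [e, inv]⟩⟩
      loopless := ⟨fun a h => h.1 rfl⟩ }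
  let T : TS G (Fin (12 * j + 10 + 2 * i)) :=
    ⟨τ, σ, fun t => by
      refine Eq.trans ?_ ((card_ico (k := 36 * j + 30 + 6 * i) (a := 3 * t) (b := 3 * t + 3)
        (by omega)).trans (by omega))
      congr 1; ext u; simp only [mem_filter, mem_univ, true_and, τ, Fin.ext_iff]; omega,
      inv, fun v e => (spec j i v v.2).2.2.1 (congrArg Fin.val e), fun _ _ => Iff.rfl⟩
  have r : ∀ m (h : m < 36 * j + 30 + 6 * i), G.Reachable ⟨0, by omega⟩ ⟨m, h⟩ := by
    intro m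
    induction m using Nat.strong_induction_on with
    | _ m ih =>
    intro h
    rcases Nat.eq_zero_or_pos m with rfl | p
    · rfl
    by_cases c : m % 3 = 0
    · exact (ih _ ((spec j i m h).2.2.2.1 c p) _).trans (T.adj_s ⟨m, h⟩).symm.reachable
    · exact (ih (m - 1) (by omega) (by omega)).trans (Adj.reachable ⟨by
        simp only [ne_eq, Fin.ext_iff]; omega, Or.inl (by simp only [τ, Fin.ext_iff]; omega)⟩)
  refine ⟨G, T.inC (@Connected.mk _ _ (fun u v => (r u u.2).symm.trans (r v v.2)) ⟨⟨0, by omega⟩⟩),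
    le_trans ?_ (T.lower (fun t => lab j t) (fun v => (spec j i v v.2).2.2.2.2)
      (X := {x ∈ range (12 * j + 5) | wt i x ≠ 0}) (by simp [wt]) fun x hx => ?_)⟩
  · rw [sum_congr rfl fun x hx => fib_lab (mem_range.1 (mem_filter.1 hx).1) (mem_filter.1 hx).2,
      sum_filter_ne_zero, sum_wt]
  · have := fib_lab (mem_range.1 (mem_filter.1 hx).1) (mem_filter.1 hx).2
    rw [Nat.odd_iff]
    unfold wt at this
    split_ifs at this <;> omega

end Pool.Agent.H.MP_e52bc6_co
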